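import Pool.Agent.Helper98.TA.Stmts
import Pool.Agent.Helper98.TW.Basic

/-!
Sheet TA (MP_7a8f48_an): row SIN, increments for a power.
-/

open MeasureTheory Filter Topology Finset
open scoped ComplexConjugate

namespace Pool.Agent.Helper94.TA

open Pool.Agent.Helper98.TW
open Pool.Agent.Helper98.TA
open Pool.Agent.Helper40.TWM (St)

section

variable {Ω : Type} [m0 : MeasurableSpace Ω] {μ : Measure Ω}

/-- conjugate powers -/
theorem zpow_conj_mul {z : ℂ} (hz : ‖z‖ = 1) (m n : ℤ) :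
    conj (z ^ m) * conj (z ^ n) = conj (z ^ (m + n)) := by
  have h0 : z ≠ 0 := by
    intro h
    rw [h, norm_zero] at hz
    exact zero_ne_one hz
  rw [zpow_add₀ h0, map_mul]

/-- the powers of `u` form a group -/
theorem pw_grp {E : SA Ω} {u : Ω → ℂ} (hu : UF μ u) : Grp μ (Pw μ E u) := by
  refine ⟨fun φ h => h.1, ⟨uf_one, 0, ?_⟩, ?_, ?_⟩
  · refine am_congr (am_const 1) (Eventually.of_forall fun x => ?_)
    simp
  · rintro φ ⟨uφ, m, hm⟩ ψ ⟨uψ, n, hn⟩
    refine ⟨uφ.mul uψ, m + n, am_congr (am_mul hm hn) ?_⟩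
    filter_upwards [hu.2] with x hx
    rw [← zpow_conj_mul hx]
    ring
  · rintro φ ⟨uφ, m, hm⟩
    refine ⟨uφ.conj, -m, am_congr (am_conj hm) ?_⟩
    filter_upwards [hu.2] with x hx
    have h1 : conj (u x ^ (-m)) = u x ^ m := by
      have h0 : u x ≠ 0 := by
        intro h
        rw [h, norm_zero] at hx
        exact zero_ne_one hx
      have h2 : (conj (u x)) = (u x)⁻¹ := by
        rw [Complex.inv_def, Complex.normSq_eq_norm_sq, hx]
        simp
      rw [map_zpow₀, h2, zpow_neg, inv_zpow, inv_inv]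
    rw [h1, map_mul, Complex.conj_conj]

/-- integer powers of functions with increments -/
theorem inc_zpow {E : SA Ω} {R : Ω → Ω} {u : Ω → ℂ} (h : Inc μ E R u) (n : ℤ) :
    AM μ E (fun x => u (R x) ^ n * conj (u x ^ n)) := by
  have h1 : AM μ E (fun x => (u (R x) * conj (u x)) ^ n) :=
    am_cont (φ := fun z => z ^ n) (by fun_prop) h
  refine am_congr h1 (Eventually.of_forall fun x => ?_)
  simp only [mul_zpow, map_zpow₀]

/-- functions of the extension have increments in `E` -/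
theorem inc_pw {E : SA Ω} {R R' : Ω → Ω} {u φ : Ω → ℂ} (hR : Sys μ R R') (hE : IA μ E R R')
    (hu : UF μ u) (hi : Inc μ E R u) (h : φ ∈ Pw μ E u) : Inc μ E R φ := by
  obtain ⟨uφ, n, hn⟩ := h
  refine am_congr (am_mul (am_mul (hE.2 _ hn).1 (am_conj hn)) (inc_zpow hi n)) ?_
  have h1 : ∀ᵐ x ∂μ, u x ^ n * conj (u x ^ n) = 1 := by
    filter_upwards [hu.2] with x hx
    rw [Complex.mul_conj, Complex.normSq_eq_norm_sq, norm_zpow, hx]
    simp
  filter_upwards [h1, hR.mp.quasiMeasurePreserving.ae h1] with x e1 e2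
  simp only [map_mul, Complex.conj_conj]
  calc φ (R x) * conj (u (R x) ^ n) * (conj (φ x) * (u x ^ n)) *
        (u (R x) ^ n * conj (u x ^ n)) = (u (R x) ^ n * conj (u (R x) ^ n)) *
        (u x ^ n * conj (u x ^ n)) * (φ (R x) * conj (φ x)) := by ring
    _ = φ (R x) * conj (φ x) := by rw [e1, e2]; ring

/-- increments for iterates -/
theorem inc_iter {E : SA Ω} {R R' : Ω → Ω} {φ : Ω → ℂ} (hR : Sys μ R R') (hE : IA μ E R R')
    (hφ : UF μ φ) (hi : Inc μ E R φ) (n : ℕ) : Inc μ E R^[n] φ := by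
  induction n with
  | zero =>
    refine am_congr (am_const 1) ?_
    filter_upwards [hφ.mul_conj] with x hx
    simpa using hx.symm
  | succ n ih =>
    have h1 := ((hE.iterate n).2 _ hi).1
    refine am_congr (am_mul h1 ih) ?_
    filter_upwards [(hφ.comp (hR.iterate n).mp).conj_mul] with x hx
    rw [Function.iterate_succ_apply']
    calc φ (R (R^[n] x)) * conj (φ (R^[n] x)) * (φ (R^[n] x) * conj (φ x)) =
          φ (R (R^[n] x)) * conj (φ x) * (conj (φ (R^[n] x)) * φ (R^[n] x)) := by ring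
      _ = φ (R (R^[n] x)) * conj (φ x) := by rw [hx, mul_one]

/-- if the increment `φ` of `ψ` has increments in `C` and the `p`-th increment of `ψ` is in `C`,
then `φ ^ p` is in `C` -/
theorem root_step {C : SA Ω} {S S' : Ω → Ω} {ψ φ : Ω → ℂ} (hS : Sys μ S S')
    (hC : IA μ C S S') (uψ : UF μ ψ) (hφ : φ = fun x => ψ (S x) * conj (ψ x)) (p : ℕ)
    (hi : Inc μ C S^[p] ψ) (hs : Inc μ C S φ) : AM μ C (fun x => φ x ^ p) := by
  have uφ : UF μ φ := by
    rw [hφ]
    exact (uψ.comp hS.mp).mul uψ.conj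
  have hj : ∀ j : ℕ, Inc μ C S^[j] φ := fun j => inc_iter hS hC uφ hs j
  have hn : ∀ n : ℕ, AM μ C (fun x => ψ (S^[n] x) * conj (ψ x) * conj (φ x) ^ n) := by
    intro n
    induction n with
    | zero =>
      refine am_congr (am_const 1) ?_
      filter_upwards [uψ.mul_conj] with x hx
      simpa using hx.symm
    | succ n ih =>
      refine am_congr (am_mul (hj n) ih) ?_
      filter_upwards [(uψ.comp (hS.iterate n).mp).conj_mul] with x hx
      rw [Function.iterate_succ_apply', pow_succ]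
      have e1 : φ (S^[n] x) = ψ (S (S^[n] x)) * conj (ψ (S^[n] x)) := by rw [hφ]
      rw [e1]
      calc ψ (S (S^[n] x)) * conj (ψ (S^[n] x)) * conj (φ x) *
            (ψ (S^[n] x) * conj (ψ x) * conj (φ x) ^ n) =
            ψ (S (S^[n] x)) * conj (ψ x) * (conj (φ x) ^ n * conj (φ x)) *
            (conj (ψ (S^[n] x)) * ψ (S^[n] x)) := by ring
        _ = ψ (S (S^[n] x)) * conj (ψ x) * (conj (φ x) ^ n * conj (φ x)) := by
          rw [hx, mul_one]
  refine am_congr (am_mul hi (am_conj (hn p))) ?_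
  filter_upwards [uψ.mul_conj, (uψ.comp (hS.iterate p).mp).mul_conj] with x h1 h2
  simp only [map_mul, map_pow, Complex.conj_conj]
  calc ψ (S^[p] x) * conj (ψ x) * (conj (ψ (S^[p] x)) * ψ x * φ x ^ p) =
        (ψ (S^[p] x) * conj (ψ (S^[p] x))) * (ψ x * conj (ψ x)) * φ x ^ p := by ring
    _ = φ x ^ p := by rw [h1, h2]; ring

end

theorem st_SIN (hLT : Pool.Agent.Helper98.TW.ST_LT) (hIAJ : Pool.Agent.Helper98.TW.ST_IAJ)
    (hABX : Pool.Agent.Helper98.TA.ST_ABX) : Pool.Agent.Helper98.TA.ST_SIN := by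
  intro Ω _ μ _ S S' u A N C p hSt hTr hC hp hroot
  have hS : Sys μ S S' := by simpa using hSt.sys 1
  have hA : ∀ k, IA μ (A k) S S' := fun k => ((hABX Ω μ S S' hS).2 u A N hTr k 1).1
  have hJ : ∀ k, IA μ (jo C (A k)) S S' := fun k => (hIAJ Ω μ S S' hS).1 C (A k) hC (hA k)
  have key : ∀ k, ∀ ψ, UF μ ψ → AM μ (jo C (A k)) ψ → Inc μ C S^[p] ψ → Inc μ C S ψ := by
    intro k
    induction k with
    | zero =>
      intro ψ _ hψ _
      rw [hTr.zero] at hψ
      exact inc_of_am hC (lq_jo lq_refl lq_bo _ hψ)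
    | succ k ih =>
      intro ψ uψ hψ hi
      obtain ⟨Φ, hΦ⟩ : ∃ Φ, Φ = Pw μ (A k) (u k) := ⟨_, rfl⟩
      have hg : Grp μ Φ := hΦ ▸ pw_grp (hTr.uf k)
      have hiΦ : ∀ φ ∈ Φ, Inc μ (A k) S φ := by
        intro φ h
        rw [hΦ] at h
        exact inc_pw hS (hA k) (hTr.uf k) (hTr.inc k) h
      have hiΦ' : ∀ φ ∈ Φ, Inc μ (jo C (A k)) S^[p] φ := fun φ h =>
        (inc_iter hS (hA k) (hg.uf φ h) (hiΦ φ h) p).lq lq_jo_right
      have hψ' : AM μ (jo (jo C (A k)) (sg Φ)) ψ := by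
        have e : jo C (A (k + 1)) = jo (jo C (A k)) (sg Φ) := by
          rw [hTr.succ k, hΦ]
          exact (sup_assoc (α := MeasurableSpace Ω) _ _ _).symm
        rwa [e] at hψ
      obtain ⟨φ₀, h₀, hc⟩ := hLT Ω μ S^[p] S'^[p] (jo C (A k)) Φ ψ (hSt.sys p) (hSt.erg p hp)
        ((hJ k).iterate p) hg hiΦ' uψ hψ' (hi.lq lq_jo_left)
      obtain ⟨φ, hφ⟩ : ∃ φ : Ω → ℂ, φ = fun x => ψ (S x) * conj (ψ x) := ⟨_, rfl⟩
      have uφ : UF μ φ := by
        rw [hφ]
        exact (uψ.comp hS.mp).mul uψ.conj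
      have u₀ := hg.uf φ₀ h₀
      have hAφ : AM μ (jo C (A k)) φ := by
        rw [hφ]
        refine am_congr (am_mul (am_mul ((hJ k).2 _ hc).1 (am_conj hc))
          (am_jo_right (ℬ := A k) (𝒜 := C) (hiΦ φ₀ h₀))) ?_
        filter_upwards [u₀.mul_conj, (u₀.comp hS.mp).mul_conj] with x e1 e2
        simp only [map_mul, Complex.conj_conj]
        calc ψ (S x) * conj (φ₀ (S x)) * (conj (ψ x) * φ₀ x) * (φ₀ (S x) * conj (φ₀ x)) =
              (φ₀ (S x) * conj (φ₀ (S x))) * (φ₀ x * conj (φ₀ x)) * (ψ (S x) * conj (ψ x)) := by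
              ring
          _ = ψ (S x) * conj (ψ x) := by rw [e1, e2]; ring
      have hiφ : Inc μ C S^[p] φ := by
        have hb1 := (hC.2 _ hi).1
        rw [hφ]
        refine am_congr (am_mul hb1 (am_conj hi)) (Filter.Eventually.of_forall fun x => ?_)
        have e1 : S^[p] (S x) = S (S^[p] x) := by
          rw [← Function.iterate_succ_apply, Function.iterate_succ_apply']
        simp only [map_mul, Complex.conj_conj, e1]
        ring
      have hs : Inc μ C S φ := ih φ uφ hAφ hiφ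
      have h1 := hroot φ uφ hs (root_step hS hC uψ hφ p hi hs)
      rw [hφ] at h1
      exact h1
  exact fun ψ uψ hi => key N ψ uψ (am_jo_right (hTr.top ψ uψ.1)) hi

end Pool.Agent.Helper94.TA
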