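import Pool.Agent.Helper98.TA.Basic
import Pool.Agent.Helper73.TWR.Tool

/-!
Sheet TA (MP_7a8f48_an): row TKG, the projection on the Kronecker factor respects the classes.
-/

open MeasureTheory Filter Topology Finset
open scoped ComplexConjugate

namespace Pool.Agent.Helper94.TA

open Pool.Agent.Helper98.TW
open Pool.Agent.Helper98.TA
open Pool.Agent.Helper73.TWR (AB ce_am ce_int ce_unique ce_of_am ce_congr ce_sub pullb int_ce
  uf_int int_zero_of_ce)
open Pool.Agent.Helper40.TWM (St)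

section

variable {Ω : Type} [m0 : MeasurableSpace Ω] {μ : Measure Ω} [IsProbabilityMeasure μ]

/-- a bounded function `a` with `∫ |a|² = ∫ E(a|E) conj a` is `E`-measurable -/
theorem am_of_norm {E : SA Ω} (hE : Lm E) {a : Ω → ℂ} (ha : AB μ a)
    (h : ∫ x, a x * conj (a x) ∂μ = ∫ x, (μ[a|E]) x * conj (a x) ∂μ) : AM μ E a := by
  obtain ⟨c, hc⟩ : ∃ c, c = μ[a|E] := ⟨_, rfl⟩
  have hcA : AM μ E c := hc ▸ ce_am
  have hcb : AB μ c := hc ▸ ha.ce hE
  rw [← hc] at h
  have h1 : ∫ x, conj (c x) * c x ∂μ = ∫ x, conj (c x) * a x ∂μ := by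
    have := int_ce hE (am_conj hcA) hcb.conj ha.int
    rwa [← hc] at this
  have i1 : Integrable (fun x => a x * conj (a x)) μ := (ha.mul ha.conj).int
  have i2 : Integrable (fun x => c x * conj (a x)) μ := (hcb.mul ha.conj).int
  have i3 : Integrable (fun x => conj (c x) * a x) μ := (hcb.conj.mul ha).int
  have i4 : Integrable (fun x => conj (c x) * c x) μ := (hcb.conj.mul hcb).int
  have h2 : ∫ x, ((‖a x - c x‖ ^ 2 : ℝ) : ℂ) ∂μ = 0 := by
    have e : ∀ x, ((‖a x - c x‖ ^ 2 : ℝ) : ℂ) =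
        (a x * conj (a x) - c x * conj (a x)) - (conj (c x) * a x - conj (c x) * c x) := by
      intro x
      rw [← Complex.normSq_eq_norm_sq, ← Complex.mul_conj, map_sub]
      ring
    have i5 : Integrable (fun x => a x * conj (a x) - c x * conj (a x)) μ := i1.sub i2
    have i6 : Integrable (fun x => conj (c x) * a x - conj (c x) * c x) μ := i3.sub i4
    rw [integral_congr_ae (Eventually.of_forall e), integral_sub i5 i6, integral_sub i1 i2,
      integral_sub i3 i4, h, h1]
    ring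
  rw [integral_complex_ofReal, Complex.ofReal_eq_zero] at h2
  have hi : Integrable (fun x => ‖a x - c x‖ ^ 2) μ := by
    have := (ha.sub hcb).memLp.integrable_norm_pow (by norm_num)
    simpa using this
  have h3 := (integral_eq_zero_iff_of_nonneg (fun x => by positivity) hi).1 h2
  refine am_congr hcA ?_
  filter_upwards [h3] with x hx
  have h4 : ‖a x - c x‖ = 0 := by simpa using hx
  exact (sub_eq_zero.1 (norm_eq_zero.1 h4)).symm

end

theorem st_TKG (hLZ : Pool.Agent.Helper98.TW.ST_LZ) (hDNS : Pool.Agent.Helper98.TW.ST_DNS) :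
    Pool.Agent.Helper98.TA.ST_TKG := by
  intro Ω _ μ _ S S' E φ G hSt hE uφ hi hG hA
  have hS : Sys μ S S' := (Pool.Agent.Helper98.TA.St.s1 hSt)
  have hK : IA μ (fr μ S bo) S S' := ia_fr hS (ia_bo hS)
  obtain ⟨h, hh⟩ : ∃ h, h = μ[G|fr μ S bo] := ⟨_, rfl⟩
  rw [← hh]
  have hGb : AB μ G := hG.ab
  have hhb : AB μ h := hh ▸ hGb.ce hK.1
  have hhA : AM μ (fr μ S bo) h := hh ▸ ce_am
  obtain ⟨a, ha⟩ : ∃ a : Ω → ℂ, a = fun x => conj (φ x) * h x := ⟨_, rfl⟩
  rw [← ha]
  have hab : AB μ a := ha ▸ uφ.conj.ab.mul hhb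
  obtain ⟨c, hc⟩ : ∃ c, c = μ[a|E] := ⟨_, rfl⟩
  have hcA : AM μ E c := hc ▸ ce_am
  have hcb : AB μ c := hc ▸ hab.ce hE.1
  obtain ⟨P, hP⟩ : ∃ P : Ω → ℂ, P = fun x => φ x * c x := ⟨_, rfl⟩
  have hPb : AB μ P := hP ▸ uφ.ab.mul hcb
  -- the products with eigenfunctions
  have key : ∀ ψ ∈ Ga μ S bo, ∫ x, conj (ψ x) * h x ∂μ = ∫ x, conj (ψ x) * P x ∂μ := by
    rintro ψ ⟨uψ, hψ⟩
    have uχ : UF μ (fun x => ψ x * conj (φ x)) := uψ.mul uφ.conj
    have iχ : Inc μ E S (fun x => ψ x * conj (φ x)) :=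
      Pool.Agent.Helper98.TA.inc_mul (Pool.Agent.Helper98.TA.inc_mono lq_bo hψ)
        (Pool.Agent.Helper98.TA.inc_conj hi)
    rcases hLZ Ω μ S S' E _ hS (Pool.Agent.Helper98.TA.St.e1 hSt) hE uχ iχ with h0 | h1
    · -- both integrals vanish
      have e1 : ∫ x, conj (ψ x) * h x ∂μ = 0 := by
        rw [hh, int_ce hK.1 (am_conj (am_fr uψ hψ)) uψ.conj.ab hGb.int]
        have h2 := int_zero_of_ce (g := fun x => conj (conj (φ x) * G x)) hE.1 (am_conj hA)
          (((uφ.conj.ab.mul hGb).conj.mul uχ.ab).int) (uf_int uχ) h0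
        have h3 : ∫ x, conj (ψ x) * G x ∂μ =
            conj (∫ x, conj (conj (φ x) * G x) * (ψ x * conj (φ x)) ∂μ) := by
          rw [← integral_conj]
          refine integral_congr_ae ?_
          filter_upwards [uφ.mul_conj] with x hx
          simp only [map_mul, Complex.conj_conj]
          linear_combination (-(conj (ψ x) * G x)) * hx
        rw [h3, h2, map_zero]
      have e2 : ∫ x, conj (ψ x) * P x ∂μ = 0 := by
        have h2 := int_zero_of_ce (g := fun x => conj (c x)) hE.1 (am_conj hcA)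
          ((hcb.conj.mul uχ.ab).int) (uf_int uχ) h0
        have h3 : ∫ x, conj (ψ x) * P x ∂μ =
            conj (∫ x, conj (c x) * (ψ x * conj (φ x)) ∂μ) := by
          rw [← integral_conj, hP]
          refine integral_congr_ae (Eventually.of_forall fun x => ?_)
          simp only [map_mul, Complex.conj_conj]
          ring
        rw [h3, h2, map_zero]
      rw [e1, e2]
    · have h2 := int_ce hE.1 (am_conj h1) uχ.conj.ab hab.int
      rw [← hc] at h2
      have e1 : ∫ x, conj (ψ x) * P x ∂μ = ∫ x, conj (ψ x * conj (φ x)) * c x ∂μ := by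
        rw [hP]
        refine integral_congr_ae (Eventually.of_forall fun x => ?_)
        simp only [map_mul, Complex.conj_conj]
        ring
      have e2 : ∫ x, conj (ψ x) * h x ∂μ = ∫ x, conj (ψ x * conj (φ x)) * a x ∂μ := by
        rw [ha]
        refine integral_congr_ae ?_
        filter_upwards [uφ.mul_conj] with x hx
        simp only [map_mul, Complex.conj_conj]
        linear_combination (-(conj (ψ x) * h x)) * hx
      rw [e1, e2, h2]
  -- `h` is the projection of `P`
  have hF : h =ᵐ[μ] μ[P|fr μ S bo] := by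
    obtain ⟨F, hF⟩ : ∃ F : Ω → ℂ, F = fun x => h x - (μ[P|fr μ S bo]) x := ⟨_, rfl⟩
    have hFb : AB μ F := hF ▸ hhb.sub (hPb.ce hK.1)
    have hFA : AM μ (fr μ S bo) F := hF ▸ am_sub hhA ce_am
    have h0 : F =ᵐ[μ] 0 := by
      refine hDNS Ω μ bo (Ga μ S bo) F lm_bo grp_Ga hFb.int hFA fun ψ hψ => ?_
      have h1 : μ[fun x => F x * conj (ψ x)|(bo : SA Ω)] = fun _ => ∫ x, F x * conj (ψ x) ∂μ :=
        condExp_bot _
      rw [h1]
      have h2 : ∫ x, F x * conj (ψ x) ∂μ = 0 := by
        have h3 := int_ce hK.1 (am_conj (am_fr hψ.1 hψ.2)) hψ.1.conj.ab hPb.int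
        have h4 : ∫ x, F x * conj (ψ x) ∂μ = ∫ x, conj (ψ x) * h x ∂μ -
            ∫ x, conj (ψ x) * (μ[P|fr μ S bo]) x ∂μ := by
          rw [← integral_sub ((hψ.1.conj.ab.mul hhb).int)
            ((hψ.1.conj.ab.mul (hPb.ce hK.1)).int), hF]
          refine integral_congr_ae (Eventually.of_forall fun x => ?_)
          simp only []
          ring
        rw [h4, h3, key ψ hψ, sub_self]
      rw [h2]
      rfl
    filter_upwards [h0] with x hx
    rw [hF] at hx
    exact sub_eq_zero.1 hx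
  -- the norms
  refine am_of_norm hE.1 hab ?_
  rw [← hc]
  have h1 := int_ce hK.1 (am_conj hhA) hhb.conj hPb.int
  have e1 : ∫ x, a x * conj (a x) ∂μ = ∫ x, conj (h x) * (μ[P|fr μ S bo]) x ∂μ := by
    rw [ha]
    refine integral_congr_ae ?_
    filter_upwards [uφ.mul_conj, hF] with x hx hx'
    rw [← hx']
    simp only [map_mul, Complex.conj_conj]
    linear_combination (h x * conj (h x)) * hx
  have e2 : ∫ x, c x * conj (a x) ∂μ = ∫ x, conj (h x) * P x ∂μ := by
    rw [ha, hP]
    refine integral_congr_ae (Eventually.of_forall fun x => ?_)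
    simp only [map_mul, Complex.conj_conj]
    ring
  rw [e1, e2, h1]

end Pool.Agent.Helper94.TA
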