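import Pool.Agent.Helper94.TA.VFR
import Pool.Agent.Helper99.TA.TEX

/-!
Sheet TA (MP_7a8f48_an): row VAP, approximation by finitely many classes.
-/

open MeasureTheory Filter Topology Finset
open scoped ComplexConjugate

namespace Pool.Agent.Helper94.TA

open Pool.Agent.Helper98.TW
open Pool.Agent.Helper98.TA
open Pool.Agent.Helper73.TWR
open Pool.Agent.Helper40.TWM (St)

section

variable {Y : Type} [m0 : MeasurableSpace Y] {κ : Measure Y} [IsProbabilityMeasure κ]
  {E : SA Y}

theorem ab_sum {ι : Type} (s : Finset ι) {F : ι → Y → ℂ} (h : ∀ i ∈ s, AB κ (F i)) :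
    AB κ (fun x => ∑ i ∈ s, F i x) := by
  classical
  induction s using Finset.induction_on with
  | empty => simpa using ab_const (μ := κ) 0
  | insert a s ha ih =>
    refine ((h a (Finset.mem_insert_self a s)).add
      (ih fun i hi => h i (Finset.mem_insert_of_mem hi))).congr
      (Eventually.of_forall fun x => ?_)
    simp [Finset.sum_insert ha]

/-- the theorem of Pythagoras for two functions -/
theorem pyth2 {R W : Y → ℂ} (hR : AB κ R) (hW : AB κ W) (h : ∫ z, R z * conj (W z) ∂κ = 0) :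
    ∫ z, ‖R z + W z‖ ^ 2 ∂κ = ∫ z, ‖R z‖ ^ 2 ∂κ + ∫ z, ‖W z‖ ^ 2 ∂κ := by
  have h' : ∫ z, W z * conj (R z) ∂κ = 0 := by
    have h1 : ∫ z, W z * conj (R z) ∂κ = conj (∫ z, R z * conj (W z) ∂κ) := by
      rw [← integral_conj]
      refine integral_congr_ae (Eventually.of_forall fun z => ?_)
      simp only [map_mul, Complex.conj_conj]
      ring
    rw [h1, h, map_zero]
  have h1 := pyth (κ := κ) (m := 2) (f := ![R, W]) (by
    intro i
    fin_cases i
    · exact hR
    · exact hW) (by
    intro i j hij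
    fin_cases i <;> fin_cases j
    · exact absurd rfl hij
    · exact h
    · exact h'
    · exact absurd rfl hij)
  simpa [Fin.sum_univ_two] using h1

/-- the components of a bounded function in finitely many orthogonal classes -/
theorem proj_classes (hE : Lm E) {m : ℕ} {h : Fin m → Y → ℂ} (hh : ∀ i, UF κ (h i))
    (h0 : ∀ i j, i ≠ j → κ[fun x => h i x * conj (h j x)|E] =ᵐ[κ] 0) {G : Y → ℂ} (hG : AB κ G)
    {K : Fin m → Y → ℂ} (hK : ∀ i, AB κ (K i)) (hKA : ∀ i, AM κ E (K i)) :
    ∫ x, ‖G x - ∑ i, h i x * K i x‖ ^ 2 ∂κ =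
      ∫ x, ‖G x - ∑ i, h i x * (κ[fun x => conj (h i x) * G x|E]) x‖ ^ 2 ∂κ +
      ∑ i, ∫ x, ‖(κ[fun x => conj (h i x) * G x|E]) x - K i x‖ ^ 2 ∂κ := by
  obtain ⟨c, hc⟩ : ∃ c : Fin m → Y → ℂ, c = fun i => κ[fun x => conj (h i x) * G x|E] :=
    ⟨_, rfl⟩
  have hc' : ∀ i, κ[fun x => conj (h i x) * G x|E] = c i := fun i => by rw [hc]
  simp only [hc']
  have hcA : ∀ i, AM κ E (c i) := fun i => hc' i ▸ ce_am
  have hcb : ∀ i, AB κ (c i) := fun i => hc' i ▸ ((hh i).conj.ab.mul hG).ce hE
  obtain ⟨R, hR⟩ : ∃ R : Y → ℂ, R = fun x => G x - ∑ i, h i x * c i x := ⟨_, rfl⟩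
  have hSb : AB κ (fun x => ∑ i, h i x * c i x) :=
    ab_sum Finset.univ fun i _ => (hh i).ab.mul (hcb i)
  have hRb : AB κ R := hR ▸ hG.sub hSb
  obtain ⟨f, hf⟩ : ∃ f : Fin m → Y → ℂ, f = fun i x => h i x * (c i x - K i x) := ⟨_, rfl⟩
  have hfi : ∀ i x, f i x = h i x * (c i x - K i x) := fun i x => by rw [hf]
  have hD : ∀ i, AB κ (fun x => c i x - K i x) := fun i => (hcb i).sub (hK i)
  have hDA : ∀ i, AM κ E (fun x => c i x - K i x) := fun i => am_sub (hcA i) (hKA i)
  have hfb : ∀ i, AB κ (f i) := fun i => by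
    have := (hh i).ab.mul (hD i)
    rw [hf]
    exact this
  -- orthogonality of the classes
  have hort : ∀ i j, i ≠ j → ∀ a b : Y → ℂ, AB κ a → AM κ E a → AB κ b → AM κ E b →
      ∫ x, h i x * a x * conj (h j x * b x) ∂κ = 0 := by
    intro i j hij a b ha haA hb hbA
    have h1 := int_zero_of_ce (g := fun x => a x * conj (b x)) hE (am_mul haA (am_conj hbA))
      (((ha.mul hb.conj).mul ((hh i).mul (hh j).conj).ab).int) (uf_int ((hh i).mul (hh j).conj))
      (h0 i j hij)
    refine Eq.trans (integral_congr_ae (Eventually.of_forall fun x => ?_)) h1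
    simp only [map_mul]
    ring
  -- `R` is orthogonal to the classes
  have hRK : ∀ j, ∀ b : Y → ℂ, AB κ b → AM κ E b → ∫ x, R x * conj (h j x * b x) ∂κ = 0 := by
    intro j b hb hbA
    have e1 : ∫ x, R x * conj (h j x * b x) ∂κ = ∫ x, G x * conj (h j x * b x) ∂κ -
        ∑ i, ∫ x, h i x * c i x * conj (h j x * b x) ∂κ := by
      rw [← integral_finsetSum _ fun i _ =>
        ((((hh i).ab.mul (hcb i)).mul ((hh j).ab.mul hb).conj).int), ← integral_sub]
      · refine integral_congr_ae (Eventually.of_forall fun x => ?_)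
        simp only [hR]
        rw [sub_mul, Finset.sum_mul]
      · exact (hG.mul ((hh j).ab.mul hb).conj).int
      · exact integrable_finsetSum _ fun i _ =>
          ((((hh i).ab.mul (hcb i)).mul ((hh j).ab.mul hb).conj).int)
    have e2 : ∑ i, ∫ x, h i x * c i x * conj (h j x * b x) ∂κ =
        ∫ x, h j x * c j x * conj (h j x * b x) ∂κ := by
      rw [Finset.sum_eq_single j]
      · intro i _ hij
        exact hort i j hij (c i) b (hcb i) (hcA i) hb hbA
      · intro hj
        exact absurd (Finset.mem_univ j) hj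
    have e3 : ∫ x, h j x * c j x * conj (h j x * b x) ∂κ = ∫ x, conj (b x) * c j x ∂κ := by
      refine integral_congr_ae ?_
      filter_upwards [(hh j).mul_conj] with x hx
      simp only [map_mul]
      linear_combination (c j x * conj (b x)) * hx
    have e4 : ∫ x, conj (b x) * c j x ∂κ = ∫ x, conj (b x) * (conj (h j x) * G x) ∂κ := by
      rw [← hc' j]
      exact int_ce hE (am_conj hbA) hb.conj ((hh j).conj.ab.mul hG).int
    rw [e1, e2, e3, e4, ← integral_sub]
    · refine Eq.trans (integral_congr_ae (Eventually.of_forall fun x => ?_)) (integral_zero Y ℂ)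
      simp only [map_mul]
      ring
    · exact (hG.mul ((hh j).ab.mul hb).conj).int
    · exact (hb.conj.mul ((hh j).conj.ab.mul hG)).int
  have hW : AB κ (fun x => ∑ i, f i x) := ab_sum Finset.univ fun i _ => hfb i
  have h1 : ∫ x, R x * conj (∑ i, f i x) ∂κ = 0 := by
    have e1 : ∫ x, R x * conj (∑ i, f i x) ∂κ = ∑ i, ∫ x, R x * conj (f i x) ∂κ := by
      rw [← integral_finsetSum _ fun i _ => (hRb.mul (hfb i).conj).int]
      refine integral_congr_ae (Eventually.of_forall fun x => ?_)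
      simp only [map_sum]
      rw [Finset.mul_sum]
    rw [e1]
    refine Finset.sum_eq_zero fun i _ => ?_
    simp only [hfi]
    exact hRK i _ (hD i) (hDA i)
  have h2 := pyth2 hRb hW h1
  have h3 := pyth (f := f) hfb fun i j hij => by
    simp only [hfi]
    exact hort i j hij _ _ (hD i) (hDA i) (hD j) (hDA j)
  have e1 : ∫ x, ‖G x - ∑ i, h i x * K i x‖ ^ 2 ∂κ = ∫ z, ‖R z + ∑ i, f i z‖ ^ 2 ∂κ := by
    refine integral_congr_ae (Eventually.of_forall fun x => ?_)
    have : G x - ∑ i, h i x * K i x = R x + ∑ i, f i x := by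
      simp only [hR, hfi, mul_sub, Finset.sum_sub_distrib]
      ring
    simp only [this]
  have e2 : ∀ i, ∫ x, ‖f i x‖ ^ 2 ∂κ = ∫ x, ‖c i x - K i x‖ ^ 2 ∂κ := by
    intro i
    refine integral_congr_ae ?_
    filter_upwards [(hh i).2] with x hx
    rw [hfi, norm_mul, hx, one_mul]
  rw [e1, h2, h3, hR, Finset.sum_congr rfl fun i _ => e2 i]

end

theorem st_VAP (hDNS : Pool.Agent.Helper98.TW.ST_DNS) (hLZ : Pool.Agent.Helper98.TW.ST_LZ) :
    Pool.Agent.Helper98.TA.ST_VAP := by
  intro Ω _ μ _ S S' E G ε hSt hE hG hGE hε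
  classical
  have hS : Sys μ S S' := Pool.Agent.Helper98.TA.St.s1 hSt
  have he : Ergodic S μ := Pool.Agent.Helper98.TA.St.e1 hSt
  obtain ⟨m₀, φ, F, hφ, hF, hap⟩ := Pool.Agent.Helper99.TA.st_TEX hDNS Ω μ E (Ga μ S E) G ε
    hE.1 grp_Ga hG.ab.memLp hGE hε
  -- the classes
  let st : Setoid (Fin m₀) :=
    { r := fun i j => AM μ E (fun x => φ i x * conj (φ j x))
      iseqv :=
        { refl := fun i => am_congr (Pool.Agent.Helper98.TW.am_const 1) (by
            filter_upwards [(hφ i).1.mul_conj] with x hx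
            exact hx.symm)
          symm := fun {i j} h => am_congr (am_conj h) (Eventually.of_forall fun x => by
            simp only [map_mul, Complex.conj_conj]
            ring)
          trans := fun {i j k} h h' => am_congr (am_mul h h') (by
            filter_upwards [(hφ j).1.mul_conj] with x hx
            linear_combination (φ i x * conj (φ k x)) * hx) } }
  obtain ⟨e⟩ : Nonempty (Fin (Nat.card (Quotient st)) ≃ Quotient st) :=
    ⟨(Finite.equivFin (Quotient st)).symm⟩
  obtain ⟨h, hh⟩ : ∃ h : Fin (Nat.card (Quotient st)) → Ω → ℂ,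
      h = fun c => φ (Quotient.out (e c)) := ⟨_, rfl⟩
  have hhc : ∀ c, h c = φ (Quotient.out (e c)) := fun c => by rw [hh]
  have huf : ∀ c, UF μ (h c) := fun c => by rw [hhc]; exact (hφ _).1
  have hin : ∀ c, Inc μ E S (h c) := fun c => by rw [hhc]; exact (hφ _).2
  have hne : ∀ c d, c ≠ d → ¬ AM μ E (fun x => h c x * conj (h d x)) := by
    intro c d hcd hA
    rw [hhc, hhc] at hA
    have h1 : Quotient.mk st (Quotient.out (e c)) = Quotient.mk st (Quotient.out (e d)) :=
      Quotient.sound hA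
    rw [Quotient.out_eq, Quotient.out_eq] at h1
    exact hcd (e.injective h1)
  have h0 : ∀ c d, c ≠ d → μ[fun x => h c x * conj (h d x)|E] =ᵐ[μ] 0 := by
    intro c d hcd
    rcases hLZ Ω μ S S' E _ hS he hE ((huf c).mul (huf d).conj)
      (Pool.Agent.Helper98.TA.inc_mul (hin c) (Pool.Agent.Helper98.TA.inc_conj (hin d)))
      with h1 | h1
    · exact h1
    · exact absurd h1 (hne c d hcd)
  obtain ⟨K, hK⟩ : ∃ K : Fin (Nat.card (Quotient st)) → Ω → ℂ, K = fun c x =>
      ∑ i ∈ Finset.univ.filter (fun i => e.symm (Quotient.mk st i) = c),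
        φ i x * conj (h c x) * F i x := ⟨_, rfl⟩
  have hKb : ∀ c, AB μ (K c) := by
    intro c
    rw [hK]
    exact ab_sum _ fun i _ => ((hφ i).1.ab.mul (huf c).conj.ab).mul (hF i).1.ab
  have hKA : ∀ c, AM μ E (K c) := by
    intro c
    rw [hK]
    refine am_finset_sum _ fun i hi => ?_
    have h1 : e.symm (Quotient.mk st i) = c := (Finset.mem_filter.1 hi).2
    have h2 : Quotient.mk st i = Quotient.mk st (Quotient.out (e c)) := by
      rw [Quotient.out_eq, ← h1, Equiv.apply_symm_apply]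
    have h3 : AM μ E (fun x => φ i x * conj (φ (Quotient.out (e c)) x)) :=
      Quotient.exact h2
    rw [hhc c]
    exact am_mul h3 (hF i).2
  refine ⟨_, h, fun c => ⟨huf c, hin c⟩, hne, ?_, ?_⟩
  · have h1 := proj_classes hE.1 huf h0 hG.ab (K := fun _ _ => 0) (fun _ => ab_const 0)
      (fun _ => Pool.Agent.Helper98.TW.am_const 0)
    simp only [mul_zero, Finset.sum_const_zero, sub_zero] at h1
    rw [h1]
    have h2 : 0 ≤ ∫ x, ‖G x - ∑ i, h i x * (μ[fun x => conj (h i x) * G x|E]) x‖ ^ 2 ∂μ :=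
      integral_nonneg fun x => by positivity
    linarith
  · have h1 := proj_classes hE.1 huf h0 hG.ab hKb hKA
    have h2 : 0 ≤ ∑ i, ∫ x, ‖(μ[fun x => conj (h i x) * G x|E]) x - K i x‖ ^ 2 ∂μ :=
      Finset.sum_nonneg fun i _ => integral_nonneg fun x => by positivity
    have h3 : ∫ x, ‖G x - ∑ i, h i x * K i x‖ ^ 2 ∂μ = ∫ x, ‖G x - ∑ i, φ i x * F i x‖ ^ 2 ∂μ := by
      refine integral_congr_ae ?_
      have hall : ∀ᵐ x ∂μ, ∀ c, h c x * conj (h c x) = 1 := ae_all_iff.2 fun c => (huf c).mul_conj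
      filter_upwards [hall] with x hx
      have h4 : ∑ c, h c x * K c x = ∑ i, φ i x * F i x := by
        rw [← Finset.sum_fiberwise Finset.univ (fun i => e.symm (Quotient.mk st i))
          (fun i => φ i x * F i x)]
        refine Finset.sum_congr rfl fun c _ => ?_
        rw [hK, Finset.mul_sum]
        refine Finset.sum_congr rfl fun i _ => ?_
        linear_combination (φ i x * F i x) * hx c
      rw [h4]
    linarith

end Pool.Agent.Helper94.TA
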