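import Pool.Agent.Helper98.TA.MHA

/-!
Sheet TA (MP_7a8f48_an): row VFR, free steps.
-/

open MeasureTheory Filter Topology Finset
open scoped ComplexConjugate

namespace Pool.Agent.Helper94.TA

open Pool.Agent.Helper98.TW
open Pool.Agent.Helper98.TA
open Pool.Agent.Helper73.TWR
open Pool.Agent.Helper40.TWM (St)
open Pool.Agent.Helper98.GY (JY JJY)

section

variable {Y : Type} [m0 : MeasurableSpace Y] {κ : Measure Y} [IsProbabilityMeasure κ]

/-- the theorem of Pythagoras -/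
theorem pyth {m : ℕ} {f : Fin m → Y → ℂ} (hf : ∀ i, AB κ (f i))
    (h0 : ∀ i j, i ≠ j → ∫ z, f i z * conj (f j z) ∂κ = 0) :
    ∫ z, ‖∑ i, f i z‖ ^ 2 ∂κ = ∑ i, ∫ z, ‖f i z‖ ^ 2 ∂κ := by
  have hij : ∀ i j, Integrable (fun z => f i z * conj (f j z)) κ := fun i j =>
    ((hf i).mul (hf j).conj).int
  have e : ∀ w : ℂ, ((‖w‖ ^ 2 : ℝ) : ℂ) = w * conj w := by
    intro w
    rw [← Complex.normSq_eq_norm_sq, ← Complex.mul_conj]
  have h1 : ∫ z, ((‖∑ i, f i z‖ ^ 2 : ℝ) : ℂ) ∂κ = ∑ i, ∫ z, f i z * conj (f i z) ∂κ := by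
    have h2 : ∀ z, ((‖∑ i, f i z‖ ^ 2 : ℝ) : ℂ) = ∑ i, ∑ j, f i z * conj (f j z) := by
      intro z
      rw [e, map_sum, Finset.sum_mul_sum]
    rw [integral_congr_ae (Eventually.of_forall h2),
      integral_finset_sum _ fun i _ => integrable_finset_sum _ fun j _ => hij i j]
    refine Finset.sum_congr rfl fun i _ => ?_
    rw [integral_finset_sum _ fun j _ => hij i j, Finset.sum_eq_single i]
    · intro j _ hj
      exact h0 i j (Ne.symm hj)
    · intro hi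
      exact absurd (Finset.mem_univ i) hi
  have h3 : ∀ i, ∫ z, f i z * conj (f i z) ∂κ = ((∫ z, ‖f i z‖ ^ 2 ∂κ : ℝ) : ℂ) := by
    intro i
    rw [← integral_complex_ofReal]
    refine integral_congr_ae (Eventually.of_forall fun z => ?_)
    exact (e _).symm
  rw [integral_complex_ofReal, Finset.sum_congr rfl fun i _ => h3 i] at h1
  exact_mod_cast h1

/-- conditional expectations of finite sums -/
theorem ce_sum {𝒜 : SA Y} {m : ℕ} {f : Fin m → Y → ℂ} (hf : ∀ i, Integrable (f i) κ) :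
    κ[fun z => ∑ i, f i z|𝒜] =ᵐ[κ] fun z => ∑ i, (κ[f i|𝒜]) z := by
  have h1 := condExp_finset_sum (μ := κ) (m := 𝒜) (s := Finset.univ) (f := f) fun i _ => hf i
  have e1 : (fun z => ∑ i, f i z) = ∑ i, f i := by
    funext z
    rw [Finset.sum_apply]
  rw [e1]
  refine h1.trans (Eventually.of_forall fun z => ?_)
  rw [Finset.sum_apply]

end

section jj

variable {Ω : Type} [m0 : MeasurableSpace Ω] {μ : Measure Ω} [IsProbabilityMeasure μ]
  {S S' : Ω → Ω} {p q : ℕ} {κ : Measure (Ω × Ω)} {F G : Ω → ℂ}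

/-- the triangle inequality with weights -/
theorem JJY_add_wt (h : JY S μ p q κ) (hF : MemLp F 2 μ) (hG : MemLp G 2 μ) {t : ℝ}
    (ht : 0 < t) :
    JJY κ (fun x => F x + G x) ≤ (1 + t) * JJY κ F + (1 + 1 / t) * JJY κ G := by
  have hP : IsProbabilityMeasure κ := h.prob
  have h1 : MemLp (fun z : Ω × Ω => F z.1) 2 κ := hF.comp_measurePreserving (jy_mp1 h)
  have h2 : MemLp (fun z : Ω × Ω => G z.1) 2 κ := hG.comp_measurePreserving (jy_mp1 h)
  have h3 := Pool.Agent.Helper73.TWR.ce_add (𝒜 := B2 Ω) (h1.integrable (by norm_num))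
    (h2.integrable (by norm_num))
  have e1 : MemLp (κ[fun z : Ω × Ω => F z.1|B2 Ω]) 2 κ := ce_memLp h1
  have e2 : MemLp (κ[fun z : Ω × Ω => G z.1|B2 Ω]) 2 κ := ce_memLp h2
  have i1 : Integrable (fun z => ‖(κ[fun z : Ω × Ω => F z.1|B2 Ω]) z‖ ^ 2) κ :=
    e1.integrable_norm_pow (by norm_num)
  have i2 : Integrable (fun z => ‖(κ[fun z : Ω × Ω => G z.1|B2 Ω]) z‖ ^ 2) κ :=
    e2.integrable_norm_pow (by norm_num)
  show ∫ z, ‖(κ[fun z : Ω × Ω => F z.1 + G z.1|B2 Ω]) z‖ ^ 2 ∂κ ≤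
    (1 + t) * ∫ z, ‖(κ[fun z : Ω × Ω => F z.1|B2 Ω]) z‖ ^ 2 ∂κ +
      (1 + 1 / t) * ∫ z, ‖(κ[fun z : Ω × Ω => G z.1|B2 Ω]) z‖ ^ 2 ∂κ
  rw [← integral_const_mul, ← integral_const_mul, ← integral_add (i1.const_mul _)
    (i2.const_mul _)]
  refine integral_mono_of_nonneg (Eventually.of_forall fun z => by positivity)
    ((i1.const_mul _).add (i2.const_mul _)) ?_
  filter_upwards [h3] with z hz
  rw [hz]
  have h5 := norm_add_le ((κ[fun z : Ω × Ω => F z.1|B2 Ω]) z)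
    ((κ[fun z : Ω × Ω => G z.1|B2 Ω]) z)
  obtain ⟨a, ha⟩ : ∃ a, a = ‖(κ[fun z : Ω × Ω => F z.1|B2 Ω]) z‖ := ⟨_, rfl⟩
  obtain ⟨b, hb⟩ : ∃ b, b = ‖(κ[fun z : Ω × Ω => G z.1|B2 Ω]) z‖ := ⟨_, rfl⟩
  simp only [← ha, ← hb] at h5 ⊢
  have h6 := pow_le_pow_left₀ (norm_nonneg _) h5 2
  refine h6.trans ?_
  have h7 : (1 + t) * a ^ 2 + (1 + 1 / t) * b ^ 2 - (a + b) ^ 2 = (t * a - b) ^ 2 / t := by
    field_simp
    ring
  have h8 : 0 ≤ (t * a - b) ^ 2 / t := by positivity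
  linarith

end jj

theorem st_VFR (hVCO : Pool.Agent.Helper98.TA.ST_VCO) (hVAP : Pool.Agent.Helper98.TA.ST_VAP)
    (hROR : Pool.Agent.Helper98.TA.ST_ROR) : Pool.Agent.Helper98.TA.ST_VFR := by
  intro Ω _ μ _ S S' s E hSt hs hCt hSa hRs hRf hRE hVc ε hε
  obtain ⟨q₀, hq₀⟩ := hVc ε hε
  refine ⟨q₀, fun q hq hqP p hpP hpq κ hκ D hD G hG hGE hG0 => ?_⟩
  have hP : IsProbabilityMeasure κ := hκ.prob
  have hS : Sys μ S S' := Pool.Agent.Helper98.TA.St.s1 hSt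
  have hE : IA μ E S S' := hCt.ia hS hs
  have hE' : IA μ (fr μ S E) S S' := ia_fr hS hE
  obtain ⟨N, hN⟩ : ∃ N, N = ∫ x, ‖G x‖ ^ 2 ∂μ := ⟨_, rfl⟩
  have hN0 : 0 ≤ N := hN ▸ integral_nonneg fun x => by positivity
  rw [← hN]
  refine le_of_forall_pos_le_add fun η hη => ?_
  obtain ⟨t, ht⟩ : ∃ t, t = η / (2 * (ε * N + 1)) := ⟨_, rfl⟩
  have ht0 : 0 < t := by rw [ht]; positivity
  obtain ⟨δ, hδ⟩ : ∃ δ, δ = η / 2 / (1 + 1 / t) := ⟨_, rfl⟩
  have hδ0 : 0 < δ := by rw [hδ]; positivity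
  obtain ⟨m, h, hh, hne, hsum, hap⟩ := hVAP Ω μ S S' E G δ hSt hE hG hGE hδ0
  have hV := fun i => hVCO Ω μ S S' p D E (fr μ S E) (h i) G hSt hD.ia hE hE' lq_fr (hh i).1
    (hh i).2 (am_fr (hh i).1 (hh i).2) hG hGE hG0
  choose F hF hFe hFA hFc using hV
  have hVF : ∀ i, JJY κ (F i) ≤ ε * ∫ x, ‖F i x‖ ^ 2 ∂μ := fun i =>
    hq₀ q hq hqP p hpP hpq κ hκ D hD (h i) (F i) (hh i).1 (hh i).2 (hF i) (hFA i) (hFc i)
  -- the sum of the components
  obtain ⟨H, hH⟩ : ∃ H : Ω → ℂ, H = fun x => ∑ i, F i x := ⟨_, rfl⟩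
  have hHb : AB μ H := by
    rw [hH]
    have : ∀ s : Finset (Fin m), AB μ (fun x => ∑ i ∈ s, F i x) := by
      intro s
      classical
      induction s using Finset.induction_on with
      | empty => simpa using ab_const (μ := μ) 0
      | insert a s ha ih =>
        refine ((hF a).ab.add ih).congr (Eventually.of_forall fun x => ?_)
        simp [Finset.sum_insert ha]
    exact this Finset.univ
  have hJF : ∀ i, AB κ (κ[fun z : Ω × Ω => F i z.1|B2 Ω]) := fun i =>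
    ((hF i).ab.comp (jy_mp1 hκ)).ce lm_B2
  have hJH : JJY κ H = ∑ i, JJY κ (F i) := by
    have h1 : κ[fun z : Ω × Ω => H z.1|B2 Ω] =ᵐ[κ]
        fun z => ∑ i, (κ[fun z : Ω × Ω => F i z.1|B2 Ω]) z := by
      rw [hH]
      exact ce_sum (f := fun i (z : Ω × Ω) => F i z.1) fun i =>
        ((hF i).ab.comp (jy_mp1 hκ)).int
    have h2 : JJY κ H = ∫ z, ‖∑ i, (κ[fun z : Ω × Ω => F i z.1|B2 Ω]) z‖ ^ 2 ∂κ := by
      refine integral_congr_ae ?_
      filter_upwards [h1] with z hz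
      exact congrArg (fun w => ‖w‖ ^ 2) hz
    rw [h2, pyth hJF]
    · rfl
    · intro i j hij
      exact hROR Ω μ S S' s E p q κ hSt hs hCt hSa hRs hRf hRE hpP.one_lt.le hqP.one_lt.le hκ
        (h i) (h j) (F i) (F j) (hh i).1 (hh j).1 (hh i).2 (hh j).2 (hne i j hij) (hF i) (hF j)
        (hFA i) (hFA j)
  have hnorm : ∀ i, ∫ x, ‖F i x‖ ^ 2 ∂μ = ∫ x, ‖(μ[fun x => conj (h i x) * G x|E]) x‖ ^ 2 ∂μ := by
    intro i
    refine integral_congr_ae ?_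
    filter_upwards [hFe i, (hh i).1.2] with x h1 h2
    rw [h1, norm_mul, h2, one_mul]
  have hJH' : JJY κ H ≤ ε * N := by
    rw [hJH]
    refine (Finset.sum_le_sum fun i _ => hVF i).trans ?_
    rw [← Finset.mul_sum, Finset.sum_congr rfl fun i _ => hnorm i, hN]
    exact mul_le_mul_of_nonneg_left hsum hε.le
  -- the rest
  obtain ⟨R, hR⟩ : ∃ R : Ω → ℂ, R = fun x => G x - H x := ⟨_, rfl⟩
  have hRb : AB μ R := hR ▸ hG.ab.sub hHb
  have hRn : ∫ x, ‖R x‖ ^ 2 ∂μ ≤ δ := by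
    refine le_trans (le_of_eq ?_) hap
    refine integral_congr_ae ?_
    have hall : ∀ᵐ x ∂μ, ∀ i, F i x = h i x * (μ[fun x => conj (h i x) * G x|E]) x :=
      ae_all_iff.2 hFe
    filter_upwards [hall] with x hx
    simp only [hR, hH]
    rw [Finset.sum_congr rfl fun i _ => hx i]
  have hJR : JJY κ R ≤ δ := (JJY_le hκ hRb.memLp).trans hRn
  have hGe : G = fun x => H x + R x := by
    funext x
    rw [hR]
    ring
  have h1 := JJY_add_wt hκ hHb.memLp hRb.memLp ht0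
  rw [← hGe] at h1
  refine h1.trans ?_
  have h2 : t * (ε * N) ≤ η / 2 := by
    rw [ht, div_mul_eq_mul_div, div_le_div_iff₀ (by positivity) (by norm_num)]
    nlinarith [mul_nonneg hε.le hN0]
  have h3 : (1 + 1 / t) * δ = η / 2 := by
    rw [hδ]
    field_simp
  have h4 : (1 + t) * JJY κ H ≤ (1 + t) * (ε * N) := mul_le_mul_of_nonneg_left hJH' (by positivity)
  have h5 : (1 + 1 / t) * JJY κ R ≤ (1 + 1 / t) * δ :=
    mul_le_mul_of_nonneg_left hJR (by positivity)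
  rw [h3] at h5
  linarith

end Pool.Agent.Helper94.TA
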